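import Mathlib

set_option autoImplicit false
set_option maxHeartbeats 400000

open Matrix ComplexConjugate

namespace Pool.Agent.H.MP_82b8ed_al

theorem eig_in {V : Type} [AddCommGroup V] [Module ℂ V] [FiniteDimensional ℂ V] (T : V →ₗ[ℂ] V)
    (W : Submodule ℂ V) (hW : ∀ w ∈ W, T w ∈ W) (h0 : W ≠ ⊥) :
    ∃ (ν : ℂ) (u : V), u ∈ W ∧ u ≠ 0 ∧ T u = ν • u := by
  have : Nontrivial W := Submodule.nontrivial_iff_ne_bot.2 h0
  obtain ⟨ν, hν⟩ := Module.End.exists_eigenvalue (T.restrict hW)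
  obtain ⟨u, hu⟩ := hν.exists_hasEigenvector
  exact ⟨ν, u, u.2, fun h => hu.2 (Subtype.ext h), congrArg Subtype.val hu.apply_eq_smul⟩

noncomputable def Hf (x y : Fin 4 → ℂ) : ℂ :=
  conj (x 0) * y 1 + conj (x 1) * y 0 - 2 * conj (x 2) * y 2 - 2 * conj (x 3) * y 3

theorem H_neg (u : Fin 4 → ℂ) (h : u 0 + u 1 = 0) (h0 : Hf u u = 0) : u = 0 := by
  have e : u 1 = - u 0 := by linear_combination h
  have : ((Complex.normSq (u 0) + Complex.normSq (u 2) + Complex.normSq (u 3) : ℝ) : ℂ) = 0 := by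
    simp only [Hf, e, map_neg] at h0
    push_cast
    simp only [Complex.normSq_eq_conj_mul_self]
    linear_combination (-1 / 2 : ℂ) * h0
  have h1 : Complex.normSq (u 0) + Complex.normSq (u 2) + Complex.normSq (u 3) = 0 := by
    exact_mod_cast this
  have a0 := Complex.normSq_nonneg (u 0)
  have a2 := Complex.normSq_nonneg (u 2)
  have a3 := Complex.normSq_nonneg (u 3)
  have b0 : u 0 = 0 := Complex.normSq_eq_zero.1 (by linarith)
  have b2 : u 2 = 0 := Complex.normSq_eq_zero.1 (by linarith)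
  have b3 : u 3 = 0 := Complex.normSq_eq_zero.1 (by linarith)
  funext i; fin_cases i
  · exact b0
  · show u 1 = 0
    rw [e, b0, neg_zero]
  · exact b2
  · exact b3

theorem H_symm (x y : Fin 4 → ℂ) : Hf y x = conj (Hf x y) := by
  simp only [Hf, map_add, map_sub, map_mul, Complex.conj_conj, map_ofNat]; ring

theorem H_comb (a b : ℂ) (v w : Fin 4 → ℂ) : Hf (a • v + b • w) (a • v + b • w) =
    conj a * a * Hf v v + conj a * b * Hf v w + conj b * a * Hf w v + conj b * b * Hf w w := by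
  simp only [Hf, Pi.add_apply, Pi.smul_apply, smul_eq_mul, map_add, map_mul]; ring

theorem iso (v w : Fin 4 → ℂ) (hv : v ≠ 0) (h1 : Hf v v = 0) (h2 : Hf v w = 0) (h3 : Hf w w = 0) :
    ∃ κ : ℂ, w = κ • v := by
  have hb : v 0 + v 1 ≠ 0 := fun h => hv (H_neg v h h1)
  have := H_neg ((w 0 + w 1) • v + (-(v 0 + v 1)) • w) (by simp; ring)
    (by rw [H_comb, H_symm v w, h1, h2, h3]; simp)
  refine ⟨(w 0 + w 1) / (v 0 + v 1), ?_⟩
  funext i
  have h := congrFun this i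
  simp only [Pi.add_apply, Pi.smul_apply, smul_eq_mul, Pi.zero_apply] at h ⊢
  field_simp
  linear_combination -h

noncomputable def Hl (v : Fin 4 → ℂ) : (Fin 4 → ℂ) →ₗ[ℂ] ℂ where
  toFun := Hf v
  map_add' x y := by simp only [Hf, Pi.add_apply]; ring
  map_smul' c x := by simp only [Hf, Pi.smul_apply, smul_eq_mul, RingHom.id_apply]; ring

theorem lorentz (T : (Fin 4 → ℂ) →ₗ[ℂ] (Fin 4 → ℂ)) (hT : ∀ x y, Hf (T x) (T y) = Hf x y) :
    ∃ (ν : ℂ) (u : Fin 4 → ℂ), ‖ν‖ = 1 ∧ u ≠ 0 ∧ T u = ν • u := by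
  by_contra hcon
  have hno : ∀ (ν : ℂ) (u : Fin 4 → ℂ), u ≠ 0 → T u = ν • u → conj ν * ν - 1 ≠ 0 := by
    intro ν u hu e h
    apply hcon
    refine ⟨ν, u, ?_, hu, e⟩
    have : ((‖ν‖ ^ 2 : ℝ) : ℂ) = 1 := by
      rw [← Complex.normSq_eq_norm_sq, Complex.normSq_eq_conj_mul_self]; linear_combination h
    have h2 : ‖ν‖ ^ 2 = 1 := by exact_mod_cast this
    nlinarith [norm_nonneg ν]
  have isoe : ∀ (ν : ℂ) (u : Fin 4 → ℂ), u ≠ 0 → T u = ν • u → Hf u u = 0 := by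
    intro ν u hu e
    have := hT u u
    have h2 := H_comb ν 0 u u
    rw [zero_smul, add_zero, ← e, this] at h2
    apply (mul_eq_zero.1 _).resolve_left (hno ν u hu e)
    simp only [map_zero, mul_zero, zero_mul, add_zero] at h2
    linear_combination -h2
  obtain ⟨μ, v, -, hv, ev⟩ := eig_in T ⊤ (fun _ _ => trivial) top_ne_bot
  have hvv := isoe μ v hv ev
  have hb : v 0 + v 1 ≠ 0 := fun h => hv (H_neg v h hvv)
  have hb' : conj (v 0) + conj (v 1) ≠ 0 := by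
    rw [← map_add]; exact (map_ne_zero _).2 hb
  have sm : ∀ (c : ℂ) (x y : Fin 4 → ℂ), Hf (c • x) y = conj c * Hf x y := fun c x y => by
    simp only [Hf, Pi.smul_apply, smul_eq_mul, map_mul]; ring
  have hμ : conj μ ≠ 0 := by
    intro h
    have := hT v ![1, 1, 0, 0]
    rw [ev, sm, h, zero_mul] at this
    apply hb'
    simp [Hf] at this
    linear_combination -this
  have hW : ∀ w ∈ LinearMap.ker (Hl v), T w ∈ LinearMap.ker (Hl v) := by
    intro w hw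
    have h1 : Hf v w = 0 := hw
    have := hT v w
    rw [ev, sm, h1] at this
    exact (mul_eq_zero.1 this).resolve_left hμ
  let S : (Fin 4 → ℂ) →ₗ[ℂ] (Fin 4 → ℂ) := T - μ • LinearMap.id
  have hS : ∀ w, S w = T w - μ • w := fun w => rfl
  have key : ∀ w ∈ LinearMap.ker (Hl v), ∀ κ : ℂ, S w = κ • v → ∃ c : ℂ, w = c • v := by
    intro w hw κ e
    have h1 : Hf v w = 0 := hw
    have e2 : T w = κ • v + μ • w := by rw [← e, hS]; abel
    have h2 := hT w w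
    rw [e2, H_comb, H_symm v w, hvv, h1] at h2
    refine iso v w hv hvv h1 ((mul_eq_zero.1 ?_).resolve_left (hno μ v hv ev))
    simp only [map_zero, mul_zero, zero_add] at h2
    linear_combination h2
  have Sv : ∀ c : ℂ, S (c • v) = 0 := fun c => by rw [map_smul, hS, ev, sub_self, smul_zero]
  have hne : (LinearMap.ker (Hl v)).map S ≠ ⊥ := by
    intro h
    have z : ∀ w ∈ LinearMap.ker (Hl v), ∃ c : ℂ, w = c • v := fun w hw =>
      key w hw 0 (by rw [zero_smul]; exact (Submodule.eq_bot_iff _).1 h _ ⟨w, hw, rfl⟩)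
    obtain ⟨c, hc⟩ := z ![2 * conj (v 2), 2 * conj (v 2), conj (v 0) + conj (v 1), 0] (by
      show Hf v _ = 0
      simp [Hf]; ring)
    obtain ⟨c', hc'⟩ := z ![2 * conj (v 3), 2 * conj (v 3), 0, conj (v 0) + conj (v 1)] (by
      show Hf v _ = 0
      simp [Hf]; ring)
    have a2 : conj (v 0) + conj (v 1) = c * v 2 := congrFun hc 2
    have a3 : 0 = c * v 3 := congrFun hc 3
    have a4 : conj (v 0) + conj (v 1) = c' * v 3 := congrFun hc' 3
    rcases mul_eq_zero.1 a3.symm with h | h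
    · exact hb' (by rw [a2, h, zero_mul])
    · exact hb' (by rw [a4, h, mul_zero])
  obtain ⟨ν, u, ⟨w, hw, rfl⟩, hu, eu⟩ := eig_in T _ (by
    rintro _ ⟨w, hw, rfl⟩
    exact ⟨T w, hW w hw, by rw [hS, hS, map_sub, map_smul]⟩) hne
  have h1 : S w ∈ LinearMap.ker (Hl v) := by
    rw [hS]; exact Submodule.sub_mem _ (hW w hw) (Submodule.smul_mem _ _ hw)
  obtain ⟨κ, hκ⟩ := iso v (S w) hv hvv h1 (isoe ν _ hu eu)
  obtain ⟨c, rfl⟩ := key w hw κ hκ
  exact hu (Sv c)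

theorem lorentz' (T : (Fin 4 → ℂ) →ₗ[ℂ] (Fin 4 → ℂ)) (c : ℂ) (hc : c * c = 1)
    (hT : ∀ x y, Hf (T x) (T y) = c * Hf x y) :
    ∃ (ν : ℂ) (u : Fin 4 → ℂ), ‖ν‖ = 1 ∧ u ≠ 0 ∧ T u = ν • u := by
  obtain ⟨ν, u, h1, h2, h3⟩ := lorentz (T ∘ₗ T) fun x y => by
    rw [LinearMap.comp_apply, LinearMap.comp_apply, hT, hT, ← mul_assoc, hc, one_mul]
  obtain ⟨μ, hμ⟩ := IsAlgClosed.exists_pow_nat_eq ν two_pos
  have hn : ‖μ‖ = 1 := by
    have := congrArg norm hμ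
    rw [norm_pow, h1] at this
    nlinarith [norm_nonneg μ]
  by_cases h : T u + μ • u = 0
  · exact ⟨-μ, u, by rw [norm_neg, hn], h2, by rw [neg_smul]; exact eq_neg_of_add_eq_zero_left h⟩
  · refine ⟨μ, T u + μ • u, hn, h, ?_⟩
    rw [map_add, map_smul, ← LinearMap.comp_apply, h3, ← hμ, smul_add, smul_smul, pow_two, add_comm]

theorem det_ne {m : ℕ} (P : Matrix (Fin m) (Fin m) ℤ) (n : ℕ)
    (h : ∀ (ν : ℂ) (u : Fin m → ℂ), ν ^ n = 1 → P.map (Int.cast : ℤ → ℂ) *ᵥ u = ν • u → u = 0) :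
    (1 - P ^ n).det ≠ 0 := by
  intro hd
  let Q := (Int.castRingHom ℂ).mapMatrix P
  have h1 : (1 - Q ^ n).det = 0 := by
    have := (Int.castRingHom ℂ).map_det (1 - P ^ n)
    rw [hd, map_zero, map_sub, map_one, map_pow] at this
    exact this.symm
  obtain ⟨v, hv, h2⟩ := Matrix.exists_mulVec_eq_zero_iff.2 h1
  obtain ⟨ν, u, hu, hu0, e⟩ := eig_in Q.mulVecLin (LinearMap.ker (1 - Q ^ n).mulVecLin) (by
    intro w hw
    have hw' : (1 - Q ^ n) *ᵥ w = 0 := hw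
    show (1 - Q ^ n) *ᵥ (Q *ᵥ w) = 0
    have c : (1 - Q ^ n) * Q = Q * (1 - Q ^ n) := by
      rw [sub_mul, mul_sub, one_mul, mul_one, ← pow_succ, ← pow_succ']
    rw [mulVec_mulVec, c, ← mulVec_mulVec, hw', mulVec_zero])
    (fun hb => hv ((Submodule.eq_bot_iff _).1 hb v h2))
  have e' : Q *ᵥ u = ν • u := e
  have pw : ∀ k : ℕ, (Q ^ k) *ᵥ u = ν ^ k • u := by
    intro k
    induction k with
    | zero => simp
    | succ k ih => rw [pow_succ, ← mulVec_mulVec, e', mulVec_smul, ih, smul_smul, pow_succ']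
  have hu' : (1 - Q ^ n) *ᵥ u = 0 := hu
  rw [sub_mulVec, one_mulVec, pw, sub_eq_zero] at hu'
  refine hu0 (h ν u ?_ e')
  have : (ν ^ n - 1) • u = 0 := by rw [sub_smul, one_smul, ← hu', sub_self]
  exact sub_eq_zero.1 ((smul_eq_zero.1 this).resolve_right hu0)

theorem reps {m : ℕ} (B : Matrix (Fin m) (Fin m) ℤ) (h : B.det ≠ 0) :
    ∃ R : Set (Fin m → ℤ), R.Finite ∧ ∀ v, ∃ r ∈ R, ∃ u, v = r + B *ᵥ u := by
  refine ⟨Set.pi Set.univ fun _ => Set.Ico 0 |B.det|, Set.Finite.pi fun _ => Set.finite_Ico _ _,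
    fun v => ⟨fun i => v i % B.det, fun i _ => ⟨Int.emod_nonneg _ h, Int.emod_lt_abs _ h⟩,
      B.adjugate *ᵥ fun i => v i / B.det, ?_⟩⟩
  rw [mulVec_mulVec, mul_adjugate, smul_mulVec, one_mulVec]
  funext i
  simp [Int.emod_add_mul_ediv]

theorem rootD (μ : ℂ) (n : ℕ) (hn : 0 < n) (h : μ ^ n = 1) :
    μ ^ 4 - 2 * μ ^ 3 + 4 * μ ^ 2 - 2 * μ + 1 ≠ 0 := by
  intro hp
  have h1 : ‖μ‖ = 1 := Complex.norm_eq_one_of_pow_eq_one h hn.ne'
  have h2 : μ * conj μ = 1 := by rw [Complex.mul_conj, Complex.normSq_eq_norm_sq, h1]; simp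
  have h3 : (μ + conj μ) ^ 2 - 2 * (μ + conj μ) + 2 = 0 := by
    generalize conj μ = ν at h2
    grind
  rw [Complex.add_conj] at h3
  have h4 : (2 * μ.re) ^ 2 - 2 * (2 * μ.re) + 2 = 0 := by exact_mod_cast h3
  nlinarith [sq_nonneg (2 * μ.re - 1)]

theorem rootA (μ : ℂ) (n : ℕ) (hn : 0 < n) (h : μ ^ n = 1) :
    μ ^ 4 - 2 * μ ^ 3 - 2 * μ ^ 2 - 2 * μ + 1 ≠ 0 := by
  intro hp
  obtain ⟨ν, h2⟩ : ∃ ν, μ * ν = 1 := ⟨μ ^ (n - 1), by rw [← pow_succ', Nat.sub_add_cancel hn, h]⟩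
  have h3 : (μ + ν - 1) * (μ + ν - 1) = ((5 : ℤ) : ℂ) := by push_cast; grind
  have hν : ν ^ n = 1 := by rw [← one_mul (ν ^ n), ← h, ← mul_pow, h2, one_pow, h]
  let f : ℤ√5 →+* ℂ := Zsqrtd.lift ⟨_, h3⟩
  have hf : Function.Injective f := Zsqrtd.lift_injective _ fun k hk => by
    have : k ≤ 2 ∨ 3 ≤ k := by omega
    have : -2 ≤ k ∨ k ≤ -3 := by omega
    have a1 : k ≤ 2 := by nlinarith
    have a2 : -2 ≤ k := by nlinarith
    interval_cases k <;> omega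
  have h5 : (√5 : ℝ) * √5 = ((5 : ℤ) : ℝ) := by push_cast; exact Real.mul_self_sqrt (by norm_num)
  let g : ℤ√5 →+* ℝ := Zsqrtd.lift ⟨_, h5⟩
  let ε : ℤ√5 := ⟨1, 1⟩
  have ev : ∀ {R : Type} [CommRing R] (φ : ℤ√5 →+* R),
      φ ((Polynomial.dickson 1 1 n).eval ε) = (Polynomial.dickson 1 1 n).eval (φ ε) := by
    intro R _ φ
    rw [← Polynomial.eval₂_at_apply, Polynomial.eval₂_eq_eval_map, Polynomial.map_dickson, map_one]
  have e1 : (Polynomial.dickson 1 1 n).eval ε = 2 := by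
    apply hf
    have : f ε = μ + ν := by simp [f, ε]
    rw [ev, this, Polynomial.dickson_one_one_eval_add_inv μ ν h2, h, hν, map_ofNat]; norm_num
  have e2 := ev g
  have hy : 2 < g ε := by
    have : g ε = 1 + √5 := by simp [g, ε]
    rw [this]
    have : (1 : ℝ) < √5 := Real.lt_sqrt_of_sq_lt (by norm_num)
    linarith
  rw [e1, map_ofNat] at e2
  generalize g ε = y at hy e2
  have mono : ∀ k : ℕ, 2 ≤ (Polynomial.dickson 1 1 k).eval y ∧
      (Polynomial.dickson 1 1 k).eval y < (Polynomial.dickson 1 (1 : ℝ) (k + 1)).eval y := by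
    intro k
    induction k with
    | zero => simp; norm_num; exact hy
    | succ k ih =>
      refine ⟨by linarith [ih.1, ih.2], ?_⟩
      rw [Polynomial.dickson_add_two]
      simp only [Polynomial.eval_sub, Polynomial.eval_mul, Polynomial.eval_X, Polynomial.eval_C,
        one_mul]
      nlinarith [ih.1, ih.2]
  obtain ⟨k, rfl⟩ := Nat.exists_eq_succ_of_ne_zero hn.ne'
  linarith [(mono k).1, (mono k).2]

end Pool.Agent.H.MP_82b8ed_al
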